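import Mathlib

set_option autoImplicit false

/-!
Shared interface between the geometric part (helper43) and the algebraic core (helper35) of
the theorem on `(q+1)`-sets with `q-1` nuclei in `AG(2,q)`.
-/

open MvPolynomial

namespace Pool.Agent.Nuclei

variable {F : Type*} [Field F] [Fintype F]

/-- the linear form `v₀X₀ + v₁X₁ + v₂X₂` -/
noncomputable def lin (v : Fin 3 → F) : MvPolynomial (Fin 3) F := ∑ i, C (v i) * X i

/-- the coordinates of the cross product `w^q × w`, `w = (X₀, X₁, X₂)` -/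
noncomputable def Lam : Fin 3 → MvPolynomial (Fin 3) F :=
  ![X 1 ^ Fintype.card F * X 2 - X 2 ^ Fintype.card F * X 1,
    X 2 ^ Fintype.card F * X 0 - X 0 ^ Fintype.card F * X 2,
    X 0 ^ Fintype.card F * X 1 - X 1 ^ Fintype.card F * X 0]

/-- scaled vector form of a `(q+1)`-set `S` with `q-1` nuclei `N` -/
structure Conf (S N : Finset (Fin 3 → F)) : Prop where
  S2 : ∀ s ∈ S, s 2 = 1
  cardS : S.card = Fintype.card F + 1
  cardN : N.card + 1 = Fintype.card F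
  N2 : ∀ n ∈ N, n 2 ≠ 0
  Nindep : ∀ n ∈ N, ∀ m ∈ N, ∀ c : F, m = c • n → m = n
  nuc : ∀ n ∈ N, ∀ w : Fin 3 → F, w ≠ 0 → ∑ i, w i * n i = 0 →
    ∃! s, s ∈ S ∧ ∑ i, w i * s i = 0
  diff : ∀ n ∈ N, ∀ m ∈ N, n ≠ m → ∃ s ∈ S, ∃ t : F, t ≠ 0 ∧ n - m = t • s
  modid : ∀ n ∈ N, ∀ a, lin n ∣ (∏ s ∈ S, lin s) * C (n a) - Lam a

end Pool.Agent.Nuclei
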