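import Mathlib

set_option autoImplicit false

namespace Pool.Agent.Nuclei

variable {F : Type*} [Field F]

/-- `m` is a line of `AG(2,F)`: a coset of a one-dimensional subspace of `F × F`. -/
def IsLine (m : Set (F × F)) : Prop :=
  ∃ P d : F × F, d ≠ 0 ∧ m = {X | ∃ t : F, X = P + t • d}

/-- `P` is a nucleus of `S`: `P` is not in `S` and every line through `P` meets `S`. -/
def IsNucleus (S : Set (F × F)) (P : F × F) : Prop :=
  P ∉ S ∧ ∀ m, IsLine m → P ∈ m → (m ∩ S).Nonempty

/-- Type (i): the points of a line together with one further point. -/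
def TypeI (S : Set (F × F)) : Prop :=
  ∃ (m : Set (F × F)) (Q : F × F), IsLine m ∧ Q ∉ m ∧ S = m ∪ {Q}

/-- `T` is the point set of a Desargues configuration: it consists of ten points, namely a centre
`O`, the vertices `A i` and `B i` of two triangles (`i = 0, 1, 2`) and the points `C i`, such that
there are lines meeting `T` exactly in `{O, A i, B i}` (the triangles are in perspective
from `O`), exactly in `{A (i+1), A (i+2), C i}` and exactly in `{B (i+1), B (i+2), C i}`
(`C i` is the intersection of the corresponding sides opposite to `A i` and `B i`), for each `i`,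
and a line (the axis) meeting `T` exactly in `{C 0, C 1, C 2}`. -/
def IsDesargues (T : Set (F × F)) : Prop :=
  ∃ (O : F × F) (A B C : Fin 3 → F × F),
    T = {O} ∪ Set.range A ∪ Set.range B ∪ Set.range C ∧ T.ncard = 10 ∧
    (∀ i, ∃ m, IsLine m ∧ m ∩ T = {O, A i, B i}) ∧
    (∀ i, ∃ m, IsLine m ∧ m ∩ T = {A (i + 1), A (i + 2), C i}) ∧
    (∀ i, ∃ m, IsLine m ∧ m ∩ T = {B (i + 1), B (i + 2), C i}) ∧
    (∃ m, IsLine m ∧ m ∩ T = {C 0, C 1, C 2})

/-- Type (ii): `q = 5`, and `S` is a 6-set with exactly 4 nuclei which together with its nuclei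
is the point set of a Desargues configuration. -/
def TypeII (S : Set (F × F)) : Prop :=
  Nat.card F = 5 ∧ S.ncard = 6 ∧ {P | IsNucleus S P}.ncard = 4 ∧
    IsDesargues (S ∪ {P | IsNucleus S P})

end Pool.Agent.Nuclei
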