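import Mathlib

set_option autoImplicit false

open MvPolynomial

namespace Pool.Agent.helper43.Nuclei

variable {K : Type*} [Field K]

/-- the linear form attached to the affine point `s` -/
noncomputable def ell (s : K × K) : MvPolynomial (Fin 3) K :=
  C s.1 * X 0 + C s.2 * X 1 + X 2

/-- restriction to the line `s^⊥` -/
noncomputable def rho (s : K × K) : MvPolynomial (Fin 3) K →ₐ[K] MvPolynomial (Fin 3) K :=
  aeval ![X 0, X 1, C (-s.1) * X 0 + C (-s.2) * X 1]

@[simp] lemma rho_X0 (s : K × K) : rho s (X 0) = X 0 := by simp [rho]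
@[simp] lemma rho_X1 (s : K × K) : rho s (X 1) = X 1 := by simp [rho]
@[simp] lemma rho_X2 (s : K × K) : rho s (X 2) = C (-s.1) * X 0 + C (-s.2) * X 1 := by
  simp [rho]
@[simp] lemma rho_C (s : K × K) (a : K) : rho s (C a) = C a := by
  simp [rho, algebraMap_eq]

@[simp] lemma rho_ell (s : K × K) : rho s (ell s) = 0 := by
  simp only [ell, map_add, map_mul, rho_C, rho_X0, rho_X1, rho_X2, map_neg]; ring

lemma ell_dvd_sub_rho (s : K × K) (g : MvPolynomial (Fin 3) K) : ell s ∣ g - rho s g := by
  induction g using MvPolynomial.induction_on with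
  | C a => simp
  | add p q hp hq =>
    rw [map_add]
    have := dvd_add hp hq
    convert this using 1; ring
  | mul_X p i hp =>
    rw [map_mul]
    have hi : ell s ∣ X i - rho s (X i) := by
      fin_cases i
      · simp
      · simp
      · simp only [Fin.reduceFinMk, rho_X2]
        refine ⟨1, ?_⟩
        simp only [ell, map_neg]; ring
    obtain ⟨a, ha⟩ := hp
    obtain ⟨b, hb⟩ := hi
    refine ⟨a * X i + rho s p * b, ?_⟩
    linear_combination X i * ha + rho s p * hb

lemma ell_dvd_iff (s : K × K) (g : MvPolynomial (Fin 3) K) : ell s ∣ g ↔ rho s g = 0 := by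
  constructor
  · rintro ⟨a, rfl⟩; simp
  · intro h
    have := ell_dvd_sub_rho s g
    rwa [h, sub_zero] at this

lemma ell_ne_zero (s : K × K) : ell s ≠ 0 := by
  intro h
  have := congrArg (eval ![0, 0, 1]) h
  simp [ell] at this

lemma ell_prime (s : K × K) : Prime (ell s) := by
  refine ⟨ell_ne_zero s, ?_, ?_⟩
  · intro hu
    have := hu.map (rho s)
    simp at this
  · intro a b hab
    rw [ell_dvd_iff, map_mul, mul_eq_zero] at hab
    rcases hab with h | h
    · left; exact (ell_dvd_iff s a).2 h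
    · right; exact (ell_dvd_iff s b).2 h

lemma ell_isHomogeneous (s : K × K) : (ell s).IsHomogeneous 1 := by
  unfold ell
  refine ((isHomogeneous_C_mul_X _ _).add (isHomogeneous_C_mul_X _ _)).add (isHomogeneous_X _ _)

lemma ell_totalDegree (s : K × K) : (ell s).totalDegree = 1 :=
  (ell_isHomogeneous s).totalDegree (ell_ne_zero s)

lemma ell_not_dvd_ell {s t : K × K} (h : s ≠ t) : ¬ ell s ∣ ell t := by
  rw [ell_dvd_iff]
  intro h0
  apply h
  have h1 : C (t.1 - s.1) * X 0 + C (t.2 - s.2) * X 1 = (0 : MvPolynomial (Fin 3) K) := by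
    have : rho s (ell t) = C (t.1 - s.1) * X 0 + C (t.2 - s.2) * X 1 := by
      simp only [ell, map_add, map_mul, rho_C, rho_X0, rho_X1, rho_X2, map_neg, map_sub]; ring
    rw [← this, h0]
  have h2 := congrArg (eval ![1, 0, 0]) h1
  have h3 := congrArg (eval ![0, 1, 0]) h1
  simp at h2 h3
  ext
  · linear_combination -h2
  · linear_combination -h3

lemma ell_not_dvd_X0 (s : K × K) : ¬ ell s ∣ X 0 := by
  rw [ell_dvd_iff]; simp

lemma ell_not_dvd_X1 (s : K × K) : ¬ ell s ∣ X 1 := by
  rw [ell_dvd_iff]; simp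

lemma prod_ell_dvd {S : Finset (K × K)} {g : MvPolynomial (Fin 3) K}
    (h : ∀ s ∈ S, ell s ∣ g) : ∏ s ∈ S, ell s ∣ g := by
  refine S.prod_dvd_of_isRelPrime ?_ h
  intro s _ t _ hst
  exact (ell_prime s).irreducible.isRelPrime_iff_not_dvd.2 (ell_not_dvd_ell hst)

lemma prod_ell_ne_zero (S : Finset (K × K)) : ∏ s ∈ S, ell s ≠ 0 :=
  Finset.prod_ne_zero_iff.2 fun s _ => ell_ne_zero s

lemma prod_ell_isHomogeneous (S : Finset (K × K)) : (∏ s ∈ S, ell s).IsHomogeneous S.card := by
  have := IsHomogeneous.prod S (fun s => ell s) (fun _ => 1) (fun s _ => ell_isHomogeneous s)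
  simpa using this

lemma prod_ell_totalDegree (S : Finset (K × K)) : (∏ s ∈ S, ell s).totalDegree = S.card :=
  (prod_ell_isHomogeneous S).totalDegree (prod_ell_ne_zero S)

lemma eq_zero_of_ell_dvd {S : Finset (K × K)} {g : MvPolynomial (Fin 3) K}
    (h : ∀ s ∈ S, ell s ∣ g) (hd : g.totalDegree < S.card) : g = 0 := by
  by_contra hg
  obtain ⟨a, ha⟩ := prod_ell_dvd h
  have ha0 : a ≠ 0 := by rintro rfl; simp at ha; exact hg ha
  have := totalDegree_mul_of_isDomain (prod_ell_ne_zero S) ha0
  rw [← ha, prod_ell_totalDegree] at this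
  omega

end Pool.Agent.helper43.Nuclei
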