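import Mathlib
import Pool.Agent.helper43.Nuclei.Lin
import Pool.Agent.helper43.Nuclei.Conf

set_option autoImplicit false

open MvPolynomial

namespace Pool.Agent.helper43.Nuclei

variable {K : Type*} [Field K] [Fintype K]

/-- `∏_{m∈K} (x + m) = x^q - x` in every commutative `K`-algebra -/
lemma prod_add_algebraMap {R : Type*} [CommRing R] [Algebra K R] (x : R) :
    ∏ m : K, (x + algebraMap K R m) = x ^ Fintype.card K - x := by
  classical
  have h1 : (Polynomial.X ^ Fintype.card K - Polynomial.X : Polynomial K).Monic := by
    apply Polynomial.monic_X_pow_sub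
    rw [Polynomial.degree_X]
    exact_mod_cast Fintype.one_lt_card
  have h2 := Polynomial.prod_multiset_X_sub_C_of_monic_of_roots_card_eq h1 (by
    rw [FiniteField.roots_X_pow_card_sub_X, FiniteField.X_pow_card_sub_X_natDegree_eq K Fintype.one_lt_card]
    simp [Finset.card_univ])
  rw [FiniteField.roots_X_pow_card_sub_X] at h2
  have h3 := congrArg (Polynomial.aeval x) h2
  have h4 : (Multiset.map (fun a : K => Polynomial.X - Polynomial.C a) Finset.univ.val).prod
      = ∏ a : K, (Polynomial.X - Polynomial.C a) := rfl
  rw [h4] at h3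
  rw [map_prod] at h3
  simp only [map_sub, map_pow, Polynomial.aeval_X, Polynomial.aeval_C] at h3
  rw [← h3]
  refine Fintype.prod_equiv (Equiv.neg K) _ _ ?_
  intro m
  simp

lemma prod_homog {R : Type*} [CommRing R] [IsDomain R] [Algebra K R] (y z : R) (hz : z ≠ 0) :
    z * ∏ m : K, (y + algebraMap K R m * z) = y ^ Fintype.card K * z - z ^ Fintype.card K * y := by
  have hinj := IsFractionRing.injective R (FractionRing R)
  apply hinj
  rw [map_mul, map_prod, map_sub, map_mul, map_mul, map_pow, map_pow]
  set i := algebraMap R (FractionRing R) with hi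
  have hz' : i z ≠ 0 := by
    intro h
    exact hz (hinj (by rw [map_zero]; exact h))
  have h1 : ∀ m : K, i (y + algebraMap K R m * z) = i z * (i y / i z + algebraMap K (FractionRing R) m) := by
    intro m
    rw [map_add, map_mul, ← IsScalarTower.algebraMap_apply K R (FractionRing R)]
    field_simp
  simp_rw [h1]
  rw [Finset.prod_mul_distrib, prod_add_algebraMap, Finset.prod_const, Finset.card_univ, div_pow]
  have hz2 : i z ^ Fintype.card K ≠ 0 := pow_ne_zero _ hz'
  field_simp

end Pool.Agent.helper43.Nuclei
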