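import Mathlib
import Pool.Agent.helper43.Nuclei.Prod

set_option autoImplicit false

open MvPolynomial

namespace Pool.Agent.helper43.Nuclei

variable {K : Type*} [Field K]

/-- every line through `n` carries exactly one point of `S` -/
def Nuc (S : Finset (K × K)) (n : K × K) : Prop :=
  ∀ a b : K, (a ≠ 0 ∨ b ≠ 0) → ∃! s, s ∈ S ∧ a * (s.1 - n.1) + b * (s.2 - n.2) = 0

open Classical in
/-- the slope of `s - n` -/
noncomputable def slope' (n s : K × K) : Option K :=
  if s.1 = n.1 then none else some (-((s.2 - n.2) / (s.1 - n.1)))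

/-- linear form attached to a slope -/
noncomputable def dirform : Option K → MvPolynomial (Fin 3) K
  | none => X 1
  | some m => X 0 + C (-m) * X 1

/-- scaling constant -/
noncomputable def kap (n s : K × K) : K :=
  open Classical in if s.1 = n.1 then s.2 - n.2 else s.1 - n.1

/-- binary form attached to a vector -/
noncomputable def bin (v : K × K) : MvPolynomial (Fin 3) K := C v.1 * X 0 + C v.2 * X 1

lemma rho_ell' (n s : K × K) : rho n (ell s) = bin (s - n) := by
  simp only [ell, bin, map_add, map_mul, rho_C, rho_X0, rho_X1, rho_X2, map_neg, map_sub,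
    Prod.fst_sub, Prod.snd_sub]; ring

lemma kap_ne_zero {n s : K × K} (h : s ≠ n) : kap n s ≠ 0 := by
  unfold kap
  split_ifs with h1
  · intro h2
    apply h
    ext
    · exact h1
    · exact sub_eq_zero.1 h2
  · exact sub_ne_zero.2 h1

lemma bin_eq {n s : K × K} : bin (s - n) = C (kap n s) * dirform (slope' n s) := by
  unfold kap slope' bin
  split_ifs with h1
  · simp [dirform, h1]
  · have h2 : s.1 - n.1 ≠ 0 := sub_ne_zero.2 h1
    simp only [dirform, neg_neg, mul_add]
    rw [← mul_assoc, ← C_mul, mul_div_cancel₀ _ h2]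
    simp

lemma slope_surj {S : Finset (K × K)} {n : K × K} (hn : n ∉ S)
    (h : ∀ a b : K, (a ≠ 0 ∨ b ≠ 0) → ∃ s, s ∈ S ∧ a * (s.1 - n.1) + b * (s.2 - n.2) = 0) :
    ∀ x : Option K, ∃ s ∈ S, slope' n s = x := by
  intro x
  cases x with
  | none =>
    obtain ⟨s, hs, h1⟩ := h 1 0 (Or.inl one_ne_zero)
    refine ⟨s, hs, ?_⟩
    have : s.1 = n.1 := by linear_combination h1
    simp [slope', this]
  | some m =>
    obtain ⟨s, hs, h1⟩ := h m 1 (Or.inr one_ne_zero)
    refine ⟨s, hs, ?_⟩
    have h3 : s.1 ≠ n.1 := by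
      intro h2
      apply hn
      have : s = n := by
        ext
        · exact h2
        · rw [h2] at h1
          linear_combination h1
      rwa [← this]
    have h4 : s.1 - n.1 ≠ 0 := sub_ne_zero.2 h3
    rw [slope', if_neg h3]
    congr 1
    field_simp
    linear_combination -h1

lemma slope_inj [Fintype K] {S : Finset (K × K)} {n : K × K} (hn : n ∉ S)
    (hS : S.card = Fintype.card K + 1)
    (h : ∀ a b : K, (a ≠ 0 ∨ b ≠ 0) → ∃ s, s ∈ S ∧ a * (s.1 - n.1) + b * (s.2 - n.2) = 0) :
    ∀ s ∈ S, ∀ t ∈ S, slope' n s = slope' n t → s = t := by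
  classical
  have h1 := slope_surj hn h
  have h2 : Set.SurjOn (slope' n) (S : Set (K × K)) (Finset.univ : Finset (Option K)) := by
    intro x _
    obtain ⟨s, hs, hx⟩ := h1 x
    exact ⟨s, by simpa using hs, hx⟩
  have h3 := Finset.injOn_of_surjOn_of_card_le (slope' n) (fun s _ => Finset.mem_coe.2 (Finset.mem_univ _)) h2
    (by rw [hS, Finset.card_univ, Fintype.card_option])
  intro s hs t ht hst
  exact h3 (by simpa using hs) (by simpa using ht) hst

lemma nuc_of [Fintype K] {S : Finset (K × K)} {n : K × K} (hn : n ∉ S)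
    (hS : S.card = Fintype.card K + 1)
    (h : ∀ a b : K, (a ≠ 0 ∨ b ≠ 0) → ∃ s, s ∈ S ∧ a * (s.1 - n.1) + b * (s.2 - n.2) = 0) :
    Nuc S n := by
  classical
  have hi := slope_inj hn hS h
  intro a b hab
  obtain ⟨s, hs, h1⟩ := h a b hab
  refine ⟨s, ⟨hs, h1⟩, ?_⟩
  rintro t ⟨ht, h2⟩
  apply hi t ht s hs
  have key : ∀ u ∈ S, a * (u.1 - n.1) + b * (u.2 - n.2) = 0 →
      slope' n u = if b = 0 then none else some (a / b) := by
    intro u hu h3
    by_cases hb : b = 0
    · have ha : a ≠ 0 := by
        rcases hab with h | h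
        · exact h
        · exact absurd hb h
      rw [if_pos hb]
      have : u.1 = n.1 := by
        rw [hb, zero_mul, add_zero, mul_eq_zero] at h3
        rcases h3 with h3 | h3
        · exact absurd h3 ha
        · exact sub_eq_zero.1 h3
      simp [slope', this]
    · rw [if_neg hb]
      have h4 : u.1 ≠ n.1 := by
        intro h5
        rw [h5, sub_self, mul_zero, zero_add, mul_eq_zero] at h3
        rcases h3 with h3 | h3
        · exact hb h3
        · apply hn
          have : u = n := by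
            ext
            · exact h5
            · exact sub_eq_zero.1 h3
          rwa [← this]
      have h5 : u.1 - n.1 ≠ 0 := sub_ne_zero.2 h4
      rw [slope', if_neg h4]
      congr 1
      field_simp
      linear_combination -h3
  rw [key t ht h2, key s hs h1]

variable [Fintype K]

lemma prod_dirform : ∏ x : Option K, dirform x =
    (X 0 ^ Fintype.card K * X 1 - X 1 ^ Fintype.card K * X 0 : MvPolynomial (Fin 3) K) := by
  have h1 := prod_homog (K := K) (X 0 : MvPolynomial (Fin 3) K) (X 1) (X_ne_zero 1)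
  rw [Fintype.prod_option, ← h1]
  have h2 : ∏ m : K, dirform (some m) =
      ∏ m : K, ((X 0 : MvPolynomial (Fin 3) K) + algebraMap K (MvPolynomial (Fin 3) K) m * X 1) := by
    refine Fintype.prod_equiv (Equiv.neg K) _ _ ?_
    intro m
    simp only [dirform, algebraMap_eq, Equiv.neg_apply]
  rw [h2]
  rfl

/-- the scaled product identity at a nucleus -/
lemma exists_scale {S : Finset (K × K)} {n : K × K} (hn : n ∉ S)
    (hS : S.card = Fintype.card K + 1) (h : Nuc S n) :
    ∃ l : K, l ≠ 0 ∧ C l * ∏ s ∈ S, bin (s - n) =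
      (X 0 ^ Fintype.card K * X 1 - X 1 ^ Fintype.card K * X 0 : MvPolynomial (Fin 3) K) := by
  classical
  have h' : ∀ a b : K, (a ≠ 0 ∨ b ≠ 0) → ∃ s, s ∈ S ∧ a * (s.1 - n.1) + b * (s.2 - n.2) = 0 := by
    intro a b hab
    obtain ⟨s, hs, _⟩ := h a b hab
    exact ⟨s, hs⟩
  have hi := slope_inj hn hS h'
  have hsur := slope_surj hn h'
  have h1 : ∏ s ∈ S, dirform (slope' n s) = ∏ x : Option K, dirform x := by
    refine Finset.prod_bij (fun s _ => slope' n s) (fun _ _ => Finset.mem_univ _) ?_ ?_ ?_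
    · intro a ha b hb hab
      exact hi a ha b hb hab
    · intro x _
      obtain ⟨s, hs, hx⟩ := hsur x
      exact ⟨s, hs, hx⟩
    · intro a _
      rfl
  have h2 : ∏ s ∈ S, bin (s - n) = C (∏ s ∈ S, kap n s) * ∏ x : Option K, dirform x := by
    rw [← h1, map_prod, ← Finset.prod_mul_distrib]
    exact Finset.prod_congr rfl fun s _ => bin_eq
  have h3 : (∏ s ∈ S, kap n s) ≠ 0 := by
    rw [Finset.prod_ne_zero_iff]
    intro s hs
    apply kap_ne_zero
    rintro rfl
    exact hn hs
  refine ⟨(∏ s ∈ S, kap n s)⁻¹, inv_ne_zero h3, ?_⟩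
  rw [h2, ← mul_assoc, ← C_mul, inv_mul_cancel₀ h3, C_1, one_mul, prod_dirform]

end Pool.Agent.helper43.Nuclei
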