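import Mathlib
import Pool.Agent.helper43.Nuclei.Lift

set_option autoImplicit false

open MvPolynomial

namespace Pool.Agent.helper43.Nuclei

variable {K : Type*} [Field K] [Fintype K] [DecidableEq K]

lemma scale_rel {S : Finset (K × K)} {n s0 : K × K} {l : K} (hs0 : s0 ∈ S)
    (h : C l * ∏ s ∈ S, bin (s - n) =
      (X 0 ^ Fintype.card K * X 1 - X 1 ^ Fintype.card K * X 0 : MvPolynomial (Fin 3) K))
    (a b : K) (hab : a * (s0.1 - n.1) + b * (s0.2 - n.2) = 0) (e0 e1 : K) :
    l * (e0 * (s0.1 - n.1) + e1 * (s0.2 - n.2)) *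
      ∏ s ∈ S.erase s0, (a * (s.1 - n.1) + b * (s.2 - n.2)) = a * e1 - b * e0 := by
  have hq : ((Fintype.card K : ℕ) : K) = 0 := FiniteField.cast_card_eq_zero K
  have hqa : ∀ x : K, x ^ Fintype.card K = x := FiniteField.pow_card
  set D : Derivation K (MvPolynomial (Fin 3) K) (MvPolynomial (Fin 3) K) :=
    (C e0 : MvPolynomial (Fin 3) K) • pderiv 0 + (C e1 : MvPolynomial (Fin 3) K) • pderiv 1 with hD
  have hDX0 : D (X 0) = C e0 := by
    simp [hD, pderiv_X]
  have hDX1 : D (X 1) = C e1 := by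
    simp [hD, pderiv_X]
  have hDC : ∀ x : K, D (C x) = 0 := by
    intro x
    rw [← algebraMap_eq]
    exact D.map_algebraMap x
  rw [← Finset.mul_prod_erase S _ hs0] at h
  have h1 := congrArg (fun p => eval ![a, b, 0] (D p)) h
  simp only [Derivation.leibniz, map_sub, Derivation.leibniz_pow, hDX0, hDX1, hDC, bin, map_add,
    smul_eq_mul, map_mul, eval_C, eval_X, map_prod, nsmul_eq_mul, map_natCast, hq, map_pow,
    mul_zero, zero_mul, add_zero] at h1
  simp only [Matrix.cons_val_zero, Matrix.cons_val_one, hqa, Prod.fst_sub, Prod.snd_sub] at h1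
  have h2 : (s0.1 - n.1) * a + (s0.2 - n.2) * b = 0 := by linear_combination hab
  rw [h2] at h1
  have h3 : ∏ s ∈ S.erase s0, (a * (s.1 - n.1) + b * (s.2 - n.2)) =
      ∏ s ∈ S.erase s0, ((s.1 - n.1) * a + (s.2 - n.2) * b) := by
    refine Finset.prod_congr rfl fun s _ => ?_
    ring
  rw [h3]
  linear_combination h1

/-- relation between the scales of two nuclei -/
lemma scale_two {S : Finset (K × K)} {n m : K × K} {ln lm : K} (hnm : n ≠ m)
    (hn : Nuc S n)
    (h1 : C ln * ∏ s ∈ S, bin (s - n) =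
      (X 0 ^ Fintype.card K * X 1 - X 1 ^ Fintype.card K * X 0 : MvPolynomial (Fin 3) K))
    (h2 : C lm * ∏ s ∈ S, bin (s - m) =
      (X 0 ^ Fintype.card K * X 1 - X 1 ^ Fintype.card K * X 0 : MvPolynomial (Fin 3) K)) :
    ∃ s0 ∈ S, ln * (s0.1 - n.1) = lm * (s0.1 - m.1) ∧ ln * (s0.2 - n.2) = lm * (s0.2 - m.2) := by
  have hab : (n.2 - m.2 ≠ 0) ∨ (m.1 - n.1 ≠ 0) := by
    by_contra hcon
    push Not at hcon
    apply hnm
    ext
    · linear_combination -hcon.2
    · linear_combination hcon.1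
  obtain ⟨s0, ⟨hs0, hs1⟩, huni⟩ := hn (n.2 - m.2) (m.1 - n.1) hab
  have hs2 : (n.2 - m.2) * (s0.1 - m.1) + (m.1 - n.1) * (s0.2 - m.2) = 0 := by
    linear_combination hs1
  have hP : ∏ s ∈ S.erase s0, ((n.2 - m.2) * (s.1 - n.1) + (m.1 - n.1) * (s.2 - n.2)) ≠ 0 := by
    rw [Finset.prod_ne_zero_iff]
    intro s hs h0
    rw [Finset.mem_erase] at hs
    exact hs.1 (huni s ⟨hs.2, h0⟩)
  have hPP : ∏ s ∈ S.erase s0, ((n.2 - m.2) * (s.1 - m.1) + (m.1 - n.1) * (s.2 - m.2)) =
      ∏ s ∈ S.erase s0, ((n.2 - m.2) * (s.1 - n.1) + (m.1 - n.1) * (s.2 - n.2)) := by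
    refine Finset.prod_congr rfl fun s _ => ?_
    ring
  refine ⟨s0, hs0, ?_, ?_⟩
  · have e1 := scale_rel hs0 h1 _ _ hs1 1 0
    have e2 := scale_rel hs0 h2 _ _ hs2 1 0
    rw [hPP, ← e1] at e2
    have e3 := mul_right_cancel₀ hP e2
    linear_combination -e3
  · have e1 := scale_rel hs0 h1 _ _ hs1 0 1
    have e2 := scale_rel hs0 h2 _ _ hs2 0 1
    rw [hPP, ← e1] at e2
    have e3 := mul_right_cancel₀ hP e2
    linear_combination -e3

/-- homogeneous coordinates of an affine point -/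
def hat (s : K × K) : Fin 3 → K := ![s.1, s.2, 1]

omit [Fintype K] [DecidableEq K] in
@[simp] lemma hat_zero (s : K × K) : hat s 0 = s.1 := rfl
omit [Fintype K] [DecidableEq K] in
@[simp] lemma hat_one (s : K × K) : hat s 1 = s.2 := rfl
omit [Fintype K] [DecidableEq K] in
@[simp] lemma hat_two (s : K × K) : hat s 2 = 1 := rfl

omit [Fintype K] [DecidableEq K] in
lemma hat_injective : Function.Injective (hat : K × K → Fin 3 → K) := by
  intro s t h
  ext
  · exact congrFun h 0
  · exact congrFun h 1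

omit [Fintype K] [DecidableEq K] in
lemma lin_hat (s : K × K) : Pool.Agent.Nuclei.lin (hat s) = ell s := by
  simp [Pool.Agent.Nuclei.lin, Fin.sum_univ_three, ell]

omit [Fintype K] [DecidableEq K] in
lemma lin_smul (c : K) (v : Fin 3 → K) :
    Pool.Agent.Nuclei.lin (c • v) = C c * Pool.Agent.Nuclei.lin v := by
  simp only [Pool.Agent.Nuclei.lin, Fin.sum_univ_three, Pi.smul_apply, smul_eq_mul, C_mul]
  ring

/-- PART A: the scaled vector configuration attached to a `(q+1)`-set with `q-1` nuclei. -/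
theorem lift {S N : Finset (K × K)} (hS : S.card = Fintype.card K + 1)
    (hN : N.card + 1 = Fintype.card K) (hNS : ∀ n ∈ N, n ∉ S) (hnuc : ∀ n ∈ N, Nuc S n) :
    ∃ l : K × K → K, (∀ n ∈ N, l n ≠ 0) ∧
      Pool.Agent.Nuclei.Conf (S.image hat) (N.image (fun n => l n • hat n)) := by
  have hex : ∀ n : K × K, ∃ l : K, n ∈ N → (l ≠ 0 ∧ C l * ∏ s ∈ S, bin (s - n) =
      (X 0 ^ Fintype.card K * X 1 - X 1 ^ Fintype.card K * X 0 : MvPolynomial (Fin 3) K)) := by
    intro n
    by_cases hn : n ∈ N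
    · obtain ⟨l, hl⟩ := exists_scale (hNS n hn) hS (hnuc n hn)
      exact ⟨l, fun _ => hl⟩
    · exact ⟨0, fun h => absurd h hn⟩
  choose l hl using hex
  refine ⟨l, fun n hn => (hl n hn).1, ?_⟩
  have hinj : ∀ n ∈ N, ∀ m ∈ N, ∀ c : K, l m • hat m = c • (l n • hat n) → m = n := by
    intro n hn m hm c h
    have h0 := congrFun h 0
    have h1 := congrFun h 1
    have h2 := congrFun h 2
    simp only [Pi.smul_apply, smul_eq_mul, hat_zero, hat_one, hat_two, mul_one] at h0 h1 h2
    have hlm := (hl m hm).1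
    ext
    · apply mul_left_cancel₀ hlm
      rw [h0]; rw [h2]; ring
    · apply mul_left_cancel₀ hlm
      rw [h1]; rw [h2]; ring
  constructor
  · intro s hs
    obtain ⟨t, _, rfl⟩ := Finset.mem_image.1 hs
    rfl
  · rw [Finset.card_image_of_injective _ hat_injective, hS]
  · rw [Finset.card_image_of_injOn, hN]
    intro n hn m hm h
    have := hinj n (by simpa using hn) m (by simpa using hm) 1 (by rw [one_smul]; exact h.symm)
    exact this.symm
  · intro v hv
    obtain ⟨n, hn, rfl⟩ := Finset.mem_image.1 hv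
    simpa using (hl n hn).1
  · intro v hv u hu c h
    obtain ⟨n, hn, rfl⟩ := Finset.mem_image.1 hv
    obtain ⟨m, hm, rfl⟩ := Finset.mem_image.1 hu
    rw [hinj n hn m hm c h]
  · intro v hv w hw hwv
    obtain ⟨n, hn, rfl⟩ := Finset.mem_image.1 hv
    have hln := (hl n hn).1
    have h1 : w 2 = -(w 0 * n.1 + w 1 * n.2) := by
      simp only [Fin.sum_univ_three, Pi.smul_apply, smul_eq_mul, hat_zero, hat_one, hat_two] at hwv
      apply mul_left_cancel₀ hln
      linear_combination hwv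
    have h2 : w 0 ≠ 0 ∨ w 1 ≠ 0 := by
      by_contra hcon
      push Not at hcon
      apply hw
      ext i
      fin_cases i
      · exact hcon.1
      · exact hcon.2
      · simp only [Fin.reduceFinMk, Pi.zero_apply]
        rw [h1, hcon.1, hcon.2]; ring
    obtain ⟨s, ⟨hs, hs1⟩, huni⟩ := hnuc n hn (w 0) (w 1) h2
    refine ⟨hat s, ⟨Finset.mem_image_of_mem _ hs, ?_⟩, ?_⟩
    · simp only [Fin.sum_univ_three, hat_zero, hat_one, hat_two]
      rw [h1]; linear_combination hs1
    · rintro t' ⟨ht', hwt⟩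
      obtain ⟨t, ht, rfl⟩ := Finset.mem_image.1 ht'
      simp only [Fin.sum_univ_three, hat_zero, hat_one, hat_two] at hwt
      rw [huni t ⟨ht, ?_⟩]
      rw [h1] at hwt; linear_combination hwt
  · intro v hv u hu hvu
    obtain ⟨n, hn, rfl⟩ := Finset.mem_image.1 hv
    obtain ⟨m, hm, rfl⟩ := Finset.mem_image.1 hu
    have hnm : n ≠ m := by
      rintro rfl
      exact hvu rfl
    obtain ⟨s0, hs0, e1, e2⟩ := scale_two hnm (hnuc n hn) (hl n hn).2 (hl m hm).2
    refine ⟨hat s0, Finset.mem_image_of_mem _ hs0, l n - l m, ?_, ?_⟩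
    · intro h0
      apply hnm
      have hh : l n = l m := sub_eq_zero.1 h0
      have hlm := (hl m hm).1
      rw [hh] at e1 e2
      have e3 := mul_left_cancel₀ hlm e1
      have e4 := mul_left_cancel₀ hlm e2
      ext
      · linear_combination -e3
      · linear_combination -e4
    · ext i
      fin_cases i
      · simp only [Fin.zero_eta, Pi.sub_apply, Pi.smul_apply, smul_eq_mul, hat_zero]
        linear_combination -e1
      · simp only [Fin.mk_one, Pi.sub_apply, Pi.smul_apply, smul_eq_mul, hat_one]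
        linear_combination -e2
      · simp only [Fin.reduceFinMk, Pi.sub_apply, Pi.smul_apply, smul_eq_mul, hat_two]
        ring
  · intro v hv a
    obtain ⟨n, hn, rfl⟩ := Finset.mem_image.1 hv
    have hln := (hl n hn).1
    rw [lin_smul, lin_hat]
    have hunit : IsUnit (C (l n) : MvPolynomial (Fin 3) K) := (IsUnit.mk0 _ hln).map C
    rw [hunit.mul_left_dvd, ell_dvd_iff]
    rw [Finset.prod_image (fun s _ t _ h => hat_injective h)]
    simp only [lin_hat]
    rw [map_sub, map_mul, map_prod, rho_C]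
    simp only [rho_ell']
    have hid := (hl n hn).2
    set P := ∏ s ∈ S, (bin (s - n) : MvPolynomial (Fin 3) K) with hP
    set r : MvPolynomial (Fin 3) K := C (-n.1) * X 0 + C (-n.2) * X 1 with hr
    have hrq : r ^ Fintype.card K = C (-n.1) * X 0 ^ Fintype.card K + C (-n.2) * X 1 ^ Fintype.card K := by
      have hf := FiniteField.coe_frobeniusAlgHom K (MvPolynomial (Fin 3) K)
      have h1 : r ^ Fintype.card K = FiniteField.frobeniusAlgHom K (MvPolynomial (Fin 3) K) r := by
        rw [hf]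
      rw [h1, hr, map_add, map_mul, map_mul, ← algebraMap_eq, AlgHom.commutes, AlgHom.commutes, hf]
    have hC : ∀ x : K, (C (-x) : MvPolynomial (Fin 3) K) = - C x := fun x => map_neg _ _
    fin_cases a
    · simp only [Pool.Agent.Nuclei.Lam, Fin.zero_eta, Pi.smul_apply, smul_eq_mul, hat_zero,
        Matrix.cons_val_zero, map_sub, map_mul, map_pow, rho_X1, rho_X2]
      rw [← hr, hrq, hr, hC, hC]
      linear_combination C n.1 * hid
    · simp only [Pool.Agent.Nuclei.Lam, Fin.mk_one, Pi.smul_apply, smul_eq_mul, hat_one,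
        Matrix.cons_val, map_sub, map_mul, map_pow, rho_X0, rho_X2]
      rw [← hr, hrq, hr, hC, hC]
      linear_combination C n.2 * hid
    · simp only [Pool.Agent.Nuclei.Lam, Fin.reduceFinMk, Pi.smul_apply, smul_eq_mul, hat_two,
        Matrix.cons_val, map_sub, map_mul, map_pow, rho_X0, rho_X1, mul_one]
      linear_combination hid

end Pool.Agent.helper43.Nuclei
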