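import Mathlib
import Pool.Agent.helper43.Nuclei.Defs
import Pool.Agent.helper43.Nuclei.Lift2

set_option autoImplicit false

open Pool.Agent.Nuclei

namespace Pool.Agent.helper43.Nuclei

variable {K : Type*} [Field K]

/-- lines in terms of linear equations -/
lemma isLine_of_eq {a b c : K} (h : a ≠ 0 ∨ b ≠ 0) :
    IsLine {X : K × K | a * X.1 + b * X.2 + c = 0} := by
  rcases h with ha | hb
  · refine ⟨(-c / a, 0), (-b / a, 1), ?_, ?_⟩
    · intro h; exact one_ne_zero (congrArg Prod.snd h)
    · ext X
      simp only [Set.mem_ofPred_eq]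
      constructor
      · intro h
        refine ⟨X.2, ?_⟩
        ext
        · simp only [Prod.fst_add, Prod.smul_fst, smul_eq_mul]
          field_simp
          linear_combination h
        · simp
      · rintro ⟨t, rfl⟩
        simp only [Prod.fst_add, Prod.smul_fst, smul_eq_mul, Prod.snd_add, Prod.smul_snd]
        field_simp
        ring
  · refine ⟨(0, -c / b), (1, -a / b), ?_, ?_⟩
    · intro h; exact one_ne_zero (congrArg Prod.fst h)
    · ext X
      simp only [Set.mem_ofPred_eq]
      constructor
      · intro h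
        refine ⟨X.1, ?_⟩
        ext
        · simp
        · simp only [Prod.snd_add, Prod.smul_snd, smul_eq_mul]
          field_simp
          linear_combination h
      · rintro ⟨t, rfl⟩
        simp only [Prod.fst_add, Prod.smul_fst, smul_eq_mul, Prod.snd_add, Prod.smul_snd]
        field_simp
        ring

/-- a nucleus in terms of equations of lines -/
lemma exists_of_isNucleus {S : Set (K × K)} {n : K × K} (h : IsNucleus S n) (a b : K)
    (hab : a ≠ 0 ∨ b ≠ 0) : ∃ s ∈ S, a * (s.1 - n.1) + b * (s.2 - n.2) = 0 := by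
  obtain ⟨s, hs1, hs2⟩ := h.2 _ (isLine_of_eq (c := -(a * n.1 + b * n.2)) hab) (by
    simp only [Set.mem_ofPred_eq]; ring)
  refine ⟨s, hs2, ?_⟩
  simp only [Set.mem_ofPred_eq] at hs1
  linear_combination hs1

lemma typeI_of_line [Fintype K] [DecidableEq K] {S : Finset (K × K)}
    (hS : S.card = Fintype.card K + 1) {a b c : K} (hab : a ≠ 0 ∨ b ≠ 0)
    (h : ∀ X : K × K, a * X.1 + b * X.2 + c = 0 → X ∈ S) : TypeI (S : Set (K × K)) := by
  classical
  set m : Finset (K × K) := Finset.univ.filter (fun X : K × K => a * X.1 + b * X.2 + c = 0) with hm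
  have hmS : m ⊆ S := by
    intro X hX
    rw [hm, Finset.mem_filter] at hX
    exact h X hX.2
  have hcard : m.card = Fintype.card K := by
    rw [← Finset.card_univ]
    symm
    rcases hab with ha | hb
    · refine Finset.card_bij (fun t _ => ((-(b * t + c)) / a, t)) ?_ ?_ ?_
      · intro t _
        rw [hm, Finset.mem_filter]
        refine ⟨Finset.mem_univ _, ?_⟩
        simp only
        field_simp
        ring
      · intro t _ t' _ h
        exact congrArg Prod.snd h
      · intro X hX
        rw [hm, Finset.mem_filter] at hX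
        refine ⟨X.2, Finset.mem_univ _, ?_⟩
        ext
        · simp only
          field_simp
          linear_combination -hX.2
        · rfl
    · refine Finset.card_bij (fun t _ => (t, (-(a * t + c)) / b)) ?_ ?_ ?_
      · intro t _
        rw [hm, Finset.mem_filter]
        refine ⟨Finset.mem_univ _, ?_⟩
        simp only
        field_simp
        ring
      · intro t _ t' _ h
        exact congrArg Prod.fst h
      · intro X hX
        rw [hm, Finset.mem_filter] at hX
        refine ⟨X.1, Finset.mem_univ _, ?_⟩
        ext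
        · rfl
        · simp only
          field_simp
          linear_combination -hX.2
  have h1 : (S \ m).card = 1 := by
    rw [Finset.card_sdiff_of_subset hmS, hS, hcard]; omega
  obtain ⟨Q, hQ⟩ := Finset.card_eq_one.1 h1
  refine ⟨{X : K × K | a * X.1 + b * X.2 + c = 0}, Q, isLine_of_eq hab, ?_, ?_⟩
  · intro hQm
    have : Q ∈ S \ m := by rw [hQ]; exact Finset.mem_singleton_self Q
    rw [Finset.mem_sdiff] at this
    apply this.2
    rw [hm, Finset.mem_filter]
    exact ⟨Finset.mem_univ _, hQm⟩
  · ext X
    simp only [Finset.mem_coe, Set.mem_union, Set.mem_ofPred_eq, Set.mem_singleton_iff]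
    constructor
    · intro hX
      by_cases hXm : X ∈ m
      · left
        rw [hm, Finset.mem_filter] at hXm
        exact hXm.2
      · right
        have : X ∈ S \ m := Finset.mem_sdiff.2 ⟨hX, hXm⟩
        rw [hQ] at this
        exact Finset.mem_singleton.1 this
    · rintro (hX | rfl)
      · exact h X hX
      · have : X ∈ S \ m := by rw [hQ]; exact Finset.mem_singleton_self X
        exact (Finset.mem_sdiff.1 this).1

/-- if `S` (with `q+1` points) meets every line not parallel to `(v0,v1)`, it contains a line -/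
lemma typeI_of_blocking [Fintype K] [DecidableEq K] {S : Finset (K × K)}
    (hS : S.card = Fintype.card K + 1) {v0 v1 : K} (hv : v0 ≠ 0 ∨ v1 ≠ 0)
    (h : ∀ a b c : K, a * v0 + b * v1 ≠ 0 → ∃ s ∈ S, a * s.1 + b * s.2 + c = 0) :
    TypeI (S : Set (K × K)) := by
  classical
  -- choose (a0,b0) with a0 v0 + b0 v1 = 1
  obtain ⟨a0, b0, hab0⟩ : ∃ a0 b0 : K, a0 * v0 + b0 * v1 = 1 := by
    rcases hv with hv | hv
    · exact ⟨v0⁻¹, 0, by rw [zero_mul, add_zero, inv_mul_cancel₀ hv]⟩
    · exact ⟨0, v1⁻¹, by rw [zero_mul, zero_add, inv_mul_cancel₀ hv]⟩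
  by_contra hI
  have hc : ∀ c : K, ∃ P : K × K, v0 * P.2 - v1 * P.1 = c ∧ P ∉ S := by
    intro c
    by_contra hcon
    push Not at hcon
    apply hI
    refine typeI_of_line hS (a := -v1) (b := v0) (c := -c) ?_ ?_
    · rcases hv with hv | hv
      · right; exact hv
      · left; exact neg_ne_zero.2 hv
    · intro X hX
      apply hcon X
      linear_combination hX
  have hle : ∀ c : K, (S.filter (fun s => v0 * s.2 - v1 * s.1 = c)).card ≤ 1 := by
    intro c
    obtain ⟨P, hP, hPS⟩ := hc c
    have hex : ∀ μ : K, ∃ s ∈ S, (a0 - μ * v1) * (s.1 - P.1) + (b0 + μ * v0) * (s.2 - P.2) = 0 := by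
      intro μ
      obtain ⟨s, hs, hs1⟩ := h (a0 - μ * v1) (b0 + μ * v0)
        (-((a0 - μ * v1) * P.1 + (b0 + μ * v0) * P.2)) (by
          have : (a0 - μ * v1) * v0 + (b0 + μ * v0) * v1 = 1 := by linear_combination hab0
          rw [this]; exact one_ne_zero)
      exact ⟨s, hs, by linear_combination hs1⟩
    choose f hf1 hf2 using hex
    have hne : ∀ μ, v0 * ((f μ).2 - P.2) - v1 * ((f μ).1 - P.1) ≠ 0 := by
      intro μ h0
      have h2 := hf2 μ
      have h3 : a0 * ((f μ).1 - P.1) + b0 * ((f μ).2 - P.2) = 0 := by
        linear_combination h2 - μ * h0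
      apply hPS
      have h4 : (f μ).1 - P.1 = 0 := by
        linear_combination v0 * h3 - b0 * h0 - ((f μ).1 - P.1) * hab0
      have h5 : (f μ).2 - P.2 = 0 := by
        linear_combination v1 * h3 + a0 * h0 - ((f μ).2 - P.2) * hab0
      have : f μ = P := by
        ext
        · exact sub_eq_zero.1 h4
        · exact sub_eq_zero.1 h5
      rw [← this]
      exact hf1 μ
    have hinj : Function.Injective f := by
      intro μ ν hμν
      have h2 := hf2 μ
      have h3 := hf2 ν
      rw [← hμν] at h3
      have h4 : (μ - ν) * (v0 * ((f μ).2 - P.2) - v1 * ((f μ).1 - P.1)) = 0 := by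
        linear_combination h2 - h3
      rcases mul_eq_zero.1 h4 with h5 | h5
      · exact sub_eq_zero.1 h5
      · exact absurd h5 (hne μ)
    have h1 : Fintype.card K ≤ (S.filter (fun s => ¬ v0 * s.2 - v1 * s.1 = c)).card := by
      rw [← Finset.card_univ]
      apply Finset.card_le_card_of_injOn f
      · intro μ _
        rw [Finset.coe_filter]
        refine ⟨hf1 μ, ?_⟩
        intro h5
        apply hne μ
        linear_combination h5 - hP
      · exact hinj.injOn
    have h2 := Finset.card_filter_add_card_filter_not (s := S) (fun s => v0 * s.2 - v1 * s.1 = c)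
    omega
  have hsum : S.card = ∑ c : K, (S.filter (fun s => v0 * s.2 - v1 * s.1 = c)).card := by
    apply Finset.card_eq_sum_card_fiberwise
    intro s _
    simp
  have : ∑ c : K, (S.filter (fun s => v0 * s.2 - v1 * s.1 = c)).card ≤ ∑ c : K, 1 :=
    Finset.sum_le_sum fun c _ => hle c
  rw [← hsum, hS] at this
  simp at this

end Pool.Agent.helper43.Nuclei
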