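import Mathlib
import Pool.Agent.helper43.Nuclei.Geom

set_option autoImplicit false

open Pool.Agent.Nuclei

namespace Pool.Agent.helper43.Nuclei

variable {K : Type*} [Field K] [Fintype K] [DecidableEq K]

/-- an external functional takes each nonzero value exactly once on the nuclei, so its sum
vanishes when `q > 2` -/
lemma ext_sum {S N : Finset (Fin 3 → K)} (h : Conf S N) (hq : 2 < Fintype.card K)
    (w : Fin 3 → K) (hw : ∀ s ∈ S, ∑ i, w i * s i ≠ 0) : ∑ i, w i * (∑ n ∈ N, n) i = 0 := by
  have h1 : ∑ i, w i * (∑ n ∈ N, n) i = ∑ n ∈ N, ∑ i, w i * n i := by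
    rw [Finset.sum_comm]
    refine Finset.sum_congr rfl fun i _ => ?_
    rw [Finset.sum_apply, Finset.mul_sum]
  rw [h1]
  have hSne : S.Nonempty := by
    rw [← Finset.card_pos, h.cardS]; omega
  have hw0 : w ≠ 0 := by
    rintro rfl
    obtain ⟨s, hs⟩ := hSne
    exact hw s hs (by simp)
  have hne : ∀ n ∈ N, ∑ i, w i * n i ≠ 0 := by
    intro n hn h0
    obtain ⟨s, ⟨hs, hs1⟩, _⟩ := h.nuc n hn w hw0 h0
    exact hw s hs hs1
  have hinj : ∀ n ∈ N, ∀ m ∈ N, ∑ i, w i * n i = ∑ i, w i * m i → n = m := by
    intro n hn m hm hnm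
    by_contra hne'
    obtain ⟨s, hs, t, ht, hst⟩ := h.diff n hn m hm hne'
    apply hw s hs
    have h2 : ∑ i, w i * (n - m) i = t * ∑ i, w i * s i := by
      rw [hst, Finset.mul_sum]
      refine Finset.sum_congr rfl fun i _ => ?_
      rw [Pi.smul_apply, smul_eq_mul]; ring
    have h3 : ∑ i, w i * (n - m) i = 0 := by
      simp only [Pi.sub_apply, mul_sub, Finset.sum_sub_distrib]
      rw [hnm, sub_self]
    rw [h3] at h2
    rcases mul_eq_zero.1 h2.symm with h4 | h4
    · exact absurd h4 ht
    · exact h4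
  have himg : N.image (fun n => ∑ i, w i * n i) = Finset.univ.erase 0 := by
    apply Finset.eq_of_subset_of_card_le
    · intro x hx
      obtain ⟨n, hn, rfl⟩ := Finset.mem_image.1 hx
      exact Finset.mem_erase.2 ⟨hne n hn, Finset.mem_univ _⟩
    · rw [Finset.card_image_of_injOn, Finset.card_erase_of_mem (Finset.mem_univ _), Finset.card_univ,
        ← h.cardN]
      · omega
      · intro n hn m hm hnm
        exact hinj n hn m hm hnm
  have h4 : ∑ n ∈ N, ∑ i, w i * n i = ∑ x ∈ Finset.univ.erase (0 : K), x := by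
    rw [← himg, Finset.sum_image]
    intro n hn m hm hnm
    exact hinj n hn m hm hnm
  rw [h4]
  have h5 := FiniteField.sum_pow_lt_card_sub_one K 1 (by omega)
  simp only [pow_one] at h5
  have h6 := Finset.add_sum_erase Finset.univ (fun x : K => x) (Finset.mem_univ (0 : K))
  rw [zero_add, h5] at h6
  exact h6

/-- type (i) when the sum of the scaled nuclei does not vanish -/
lemma typeI_of_sum_ne_zero {S : Finset (K × K)} (hS : S.card = Fintype.card K + 1)
    (hq : 2 < Fintype.card K) {N' : Finset (Fin 3 → K)} (h : Conf (S.image hat) N')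
    (hne : ∑ n ∈ N', n ≠ 0) : TypeI (S : Set (K × K)) := by
  set v := ∑ n ∈ N', n with hv
  have hv2 : v 2 = 0 := by
    have h1 := ext_sum h hq ![0, 0, 1] (by
      intro s hs
      have := h.S2 s hs
      simp [Fin.sum_univ_three, this])
    rw [← hv] at h1
    simpa [Fin.sum_univ_three] using h1
  have hv01 : v 0 ≠ 0 ∨ v 1 ≠ 0 := by
    by_contra hcon
    push Not at hcon
    apply hne
    ext i
    fin_cases i
    · exact hcon.1
    · exact hcon.2
    · exact hv2
  apply typeI_of_blocking hS hv01
  intro a b c hab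
  by_contra hcon
  push Not at hcon
  apply hab
  have h1 := ext_sum h hq ![a, b, c] (by
    intro s hs
    obtain ⟨t, ht, rfl⟩ := Finset.mem_image.1 hs
    simpa [Fin.sum_univ_three] using hcon t ht)
  simp only [Fin.sum_univ_three, Matrix.cons_val_zero, Matrix.cons_val_one, Matrix.cons_val] at h1
  rw [← hv, hv2] at h1
  linear_combination h1

/-- the case `q = 2` -/
lemma typeI_of_card_two {S : Finset (K × K)} (hS : S.card = Fintype.card K + 1)
    (hq : Fintype.card K = 2) {n : K × K} (hn : n ∉ S) : TypeI (S : Set (K × K)) := by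
  apply typeI_of_line hS (a := 1) (b := 0) (c := -(n.1 + 1)) (Or.inl one_ne_zero)
  intro X hX
  by_contra hXS
  have hXn : X ≠ n := by
    rintro rfl
    apply one_ne_zero (α := K)
    linear_combination -hX
  have h1 : (insert X (insert n S)).card = 5 := by
    rw [Finset.card_insert_of_notMem, Finset.card_insert_of_notMem hn, hS, hq]
    rw [Finset.mem_insert]
    push Not
    exact ⟨hXn, hXS⟩
  have h2 := Finset.card_le_univ (insert X (insert n S))
  rw [h1, Fintype.card_prod, hq] at h2
  omega

end Pool.Agent.helper43.Nuclei
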