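import Mathlib
import Pool.Agent.helper43.Nuclei.Ext

set_option autoImplicit false

open Pool.Agent.Nuclei

namespace Pool.Agent.helper43.Nuclei

variable {K : Type*} [Field K]

/-- the value of the functional `w` at an affine point -/
def val (w : Fin 3 → K) (X : K × K) : K := w 0 * X.1 + w 1 * X.2 + w 2

lemma val_eq (w : Fin 3 → K) (X : K × K) : val w X = ∑ i, w i * hat X i := by
  simp [val, Fin.sum_univ_three]

lemma isLine_val {w : Fin 3 → K} (h : w 0 ≠ 0 ∨ w 1 ≠ 0) : IsLine {X : K × K | val w X = 0} :=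
  isLine_of_eq h

/-- line through two distinct points -/
lemma exists_w {P Q : K × K} (h : P ≠ Q) :
    ∃ w : Fin 3 → K, (w 0 ≠ 0 ∨ w 1 ≠ 0) ∧ val w P = 0 ∧ val w Q = 0 := by
  refine ⟨![P.2 - Q.2, Q.1 - P.1, P.1 * Q.2 - Q.1 * P.2], ?_, ?_, ?_⟩
  · simp only [Matrix.cons_val_zero, Matrix.cons_val_one]
    by_contra hcon
    push Not at hcon
    apply h
    ext
    · linear_combination -hcon.2
    · linear_combination hcon.1
  · simp only [val, Matrix.cons_val_zero, Matrix.cons_val_one, Matrix.cons_val]; ring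
  · simp only [val, Matrix.cons_val_zero, Matrix.cons_val_one, Matrix.cons_val]; ring

lemma fin4_aux : ∀ j k m a b : Fin 4, j ≠ k → k ≠ m → j ≠ m → a ≠ b →
    ((a = j ∨ a = k ∨ a = m) ∧ (b = j ∨ b = k ∨ b = m)) ∨
    (∀ i, (i = j ∨ i = k ∨ i = m) ∨ (i = a ∧ (b = j ∨ b = k ∨ b = m)) ∨
      (i = b ∧ (a = j ∨ a = k ∨ a = m))) := by
  decide

/-- abstract data of the case `q = 5` -/
structure Data (S N : Finset (K × K)) (p : Fin 4 → K × K) (v : Fin 4 → Fin 3 → K)
    (σ : Fin 4 → Fin 4 → K × K) : Prop where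
  five : (5 : K) = 0
  pN : ∀ i, p i ∈ N
  Np : ∀ n ∈ N, ∃ i, n = p i
  disj : ∀ n ∈ N, n ∉ S
  vp : ∀ i, ∃ l : K, l ≠ 0 ∧ v i = l • hat (p i)
  σS : ∀ i j, i ≠ j → σ i j ∈ S
  Sσ : ∀ s ∈ S, ∃ i j, i ≠ j ∧ s = σ i j
  symm : ∀ i j, i ≠ j → σ i j = σ j i
  dist : ∀ i j k m, i ≠ j → k ≠ m → σ i j = σ k m → (i = k ∧ j = m) ∨ (i = m ∧ j = k)
  diff : ∀ i j, i ≠ j → ∃ t : K, t ≠ 0 ∧ v i - v j = t • hat (σ i j)
  pinj : Function.Injective p
  sum : v 0 + v 1 + v 2 + v 3 = 0
  uniq : ∀ i (w : Fin 3 → K), w ≠ 0 → val w (p i) = 0 → ∀ s ∈ S, ∀ s' ∈ S, val w s = 0 →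
    val w s' = 0 → s = s'

variable {S N : Finset (K × K)} {p : Fin 4 → K × K} {v : Fin 4 → Fin 3 → K}
    {σ : Fin 4 → Fin 4 → K × K}

lemma w_ne {w : Fin 3 → K} (h : w 0 ≠ 0 ∨ w 1 ≠ 0) : w ≠ 0 := by
  rintro rfl
  simp at h

/-- value of a functional at `v i` -/
lemma Data.dot (h : Data S N p v σ) (w : Fin 3 → K) (i : Fin 4) :
    ∑ a, w a * v i a = 0 ↔ val w (p i) = 0 := by
  obtain ⟨l, hl, hv⟩ := h.vp i
  have : ∑ a, w a * v i a = l * val w (p i) := by
    rw [hv, val_eq, Finset.mul_sum]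
    refine Finset.sum_congr rfl fun a _ => ?_
    rw [Pi.smul_apply, smul_eq_mul]; ring
  rw [this, mul_eq_zero]
  simp [hl]

lemma Data.dotdiff (h : Data S N p v σ) (w : Fin 3 → K) {i j : Fin 4} (hij : i ≠ j) :
    ∑ a, w a * v i a = ∑ a, w a * v j a ↔ val w (σ i j) = 0 := by
  obtain ⟨t, ht, hv⟩ := h.diff i j hij
  have : ∑ a, w a * v i a - ∑ a, w a * v j a = t * val w (σ i j) := by
    rw [val_eq, Finset.mul_sum, ← Finset.sum_sub_distrib]
    refine Finset.sum_congr rfl fun a _ => ?_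
    have := congrFun hv a
    simp only [Pi.sub_apply, Pi.smul_apply, smul_eq_mul] at this
    linear_combination w a * this
  rw [← sub_eq_zero, this, mul_eq_zero]
  simp [ht]

lemma Data.lineL (h : Data S N p v σ) {i j : Fin 4} (hij : i ≠ j) :
    ∃ m, IsLine m ∧ m ∩ ((S : Set (K × K)) ∪ N) = {p i, p j, σ i j} := by
  obtain ⟨w, hw, hi, hj⟩ := exists_w (fun hp => hij (h.pinj hp) : p i ≠ p j)
  have hσ : val w (σ i j) = 0 := by
    rw [← h.dotdiff w hij, (h.dot w i).2 hi, (h.dot w j).2 hj]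
  refine ⟨{X | val w X = 0}, isLine_val hw, ?_⟩
  ext X
  simp only [Set.mem_inter_iff, Set.mem_ofPred_eq, Set.mem_union, Finset.mem_coe,
    Set.mem_insert_iff, Set.mem_singleton_iff]
  constructor
  · rintro ⟨hX, hXS | hXN⟩
    · right; right
      exact h.uniq i w (w_ne hw) hi X hXS _ (h.σS i j hij) hX hσ
    · obtain ⟨k, rfl⟩ := h.Np X hXN
      by_cases hki : k = i
      · left; rw [hki]
      · by_cases hkj : k = j
        · right; left; rw [hkj]
        · exfalso
          have hik : val w (σ i k) = 0 := by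
            rw [← h.dotdiff w (Ne.symm hki), (h.dot w i).2 hi, (h.dot w k).2 hX]
          have := h.uniq i w (w_ne hw) hi _ (h.σS i j hij) _ (h.σS i k (Ne.symm hki)) hσ hik
          rcases h.dist i j i k hij (Ne.symm hki) this with ⟨_, h2⟩ | ⟨h1, _⟩
          · exact hkj h2.symm
          · exact hki h1.symm
  · rintro (rfl | rfl | rfl)
    · exact ⟨hi, Or.inr (h.pN i)⟩
    · exact ⟨hj, Or.inr (h.pN j)⟩
    · exact ⟨hσ, Or.inl (h.σS i j hij)⟩

lemma Data.lineM (h : Data S N p v σ) {j k m : Fin 4} (hjk : j ≠ k) (hkm : k ≠ m) (hjm : j ≠ m) :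
    ∃ l, IsLine l ∧ l ∩ ((S : Set (K × K)) ∪ N) = {σ j k, σ k m, σ j m} := by
  have hne : σ j k ≠ σ k m := by
    intro h1
    rcases h.dist j k k m hjk hkm h1 with ⟨h2, _⟩ | ⟨h2, _⟩
    · exact hjk h2
    · exact hjm h2
  obtain ⟨w, hw, h1, h2⟩ := exists_w hne
  have e1 := (h.dotdiff w hjk).2 h1
  have e2 := (h.dotdiff w hkm).2 h2
  have h3 : val w (σ j m) = 0 := by
    rw [← h.dotdiff w hjm, e1, e2]
  have hno : ∀ i, val w (p i) ≠ 0 := by
    intro i hi
    exact hne (h.uniq i w (w_ne hw) hi _ (h.σS j k hjk) _ (h.σS k m hkm) h1 h2)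
  refine ⟨{X | val w X = 0}, isLine_val hw, ?_⟩
  ext X
  simp only [Set.mem_inter_iff, Set.mem_ofPred_eq, Set.mem_union, Finset.mem_coe,
    Set.mem_insert_iff, Set.mem_singleton_iff]
  constructor
  · rintro ⟨hX, hXS | hXN⟩
    · obtain ⟨a, b, hab, rfl⟩ := h.Sσ X hXS
      rcases fin4_aux j k m a b hjk hkm hjm hab with ⟨ha, hb⟩ | hall
      · rcases ha with rfl | rfl | rfl <;> rcases hb with rfl | rfl | rfl
        · exact absurd rfl hab
        · left; rfl
        · right; right; rfl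
        · left; exact h.symm _ _ hab
        · exact absurd rfl hab
        · right; left; rfl
        · right; right; exact h.symm _ _ hab
        · right; left; exact h.symm _ _ hab
        · exact absurd rfl hab
      · exfalso
        have hab' := (h.dotdiff w hab).2 hX
        have hc : ∀ i, (i = j ∨ i = k ∨ i = m) → ∑ a, w a * v i a = ∑ a, w a * v j a := by
          rintro i (rfl | rfl | rfl)
          · rfl
          · exact e1.symm
          · rw [e1, e2]
        have hall' : ∀ i, ∑ a, w a * v i a = ∑ a, w a * v j a := by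
          intro i
          rcases hall i with h4 | ⟨rfl, h4⟩ | ⟨rfl, h4⟩
          · exact hc i h4
          · rw [hab', hc _ h4]
          · rw [← hab', hc _ h4]
        apply hno j
        rw [← h.dot w j]
        have hs : ∑ a, w a * v 0 a + ∑ a, w a * v 1 a + ∑ a, w a * v 2 a + ∑ a, w a * v 3 a = 0 := by
          rw [← Finset.sum_add_distrib, ← Finset.sum_add_distrib, ← Finset.sum_add_distrib]
          apply Finset.sum_eq_zero
          intro a _
          have := congrFun h.sum a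
          simp only [Pi.add_apply, Pi.zero_apply] at this
          linear_combination w a * this
        rw [hall' 0, hall' 1, hall' 2, hall' 3] at hs
        linear_combination (∑ a, w a * v j a) * h.five - hs
    · obtain ⟨i, rfl⟩ := h.Np X hXN
      exact absurd hX (hno i)
  · rintro (rfl | rfl | rfl)
    · exact ⟨h1, Or.inl (h.σS j k hjk)⟩
    · exact ⟨h2, Or.inl (h.σS k m hkm)⟩
    · exact ⟨h3, Or.inl (h.σS j m hjm)⟩

end Pool.Agent.helper43.Nuclei
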