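import Mathlib
import Pool.Agent.helper43.Nuclei.TypeTwo

set_option autoImplicit false

open Pool.Agent.Nuclei

namespace Pool.Agent.helper43.Nuclei

variable {K : Type*} [Field K] {S N : Finset (K × K)} {p : Fin 4 → K × K}
  {v : Fin 4 → Fin 3 → K} {σ : Fin 4 → Fin 4 → K × K}

lemma Data.isDesargues [DecidableEq K] (h : Data S N p v σ) (hS : S.card = 6) (hN : N.card = 4) :
    IsDesargues ((S : Set (K × K)) ∪ N) := by
  refine ⟨p 0, ![p 1, p 2, p 3], ![σ 0 1, σ 0 2, σ 0 3], ![σ 2 3, σ 3 1, σ 1 2], ?_, ?_, ?_, ?_,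
    ?_, ?_⟩
  · ext X
    simp only [Set.mem_union, Finset.mem_coe, Set.mem_singleton_iff, Matrix.range_cons,
      Matrix.range_empty, Set.union_empty]
    constructor
    · rintro (hX | hX)
      · obtain ⟨a, b, hab, rfl⟩ := h.Sσ X hX
        have hsymm := h.symm a b hab
        fin_cases a <;> fin_cases b <;>
          first
          | exact absurd rfl hab
          | (simp only [Fin.zero_eta, Fin.mk_one, Fin.reduceFinMk]; tauto)
      · obtain ⟨i, rfl⟩ := h.Np X hX
        fin_cases i <;> simp only [Fin.zero_eta, Fin.mk_one, Fin.reduceFinMk] <;> tauto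
    · rintro (((rfl | rfl | rfl | rfl) | rfl | rfl | rfl) | rfl | rfl | rfl)
      · exact Or.inr (h.pN 0)
      · exact Or.inr (h.pN 1)
      · exact Or.inr (h.pN 2)
      · exact Or.inr (h.pN 3)
      · exact Or.inl (h.σS _ _ (by decide))
      · exact Or.inl (h.σS _ _ (by decide))
      · exact Or.inl (h.σS _ _ (by decide))
      · exact Or.inl (h.σS _ _ (by decide))
      · exact Or.inl (h.σS _ _ (by decide))
      · exact Or.inl (h.σS _ _ (by decide))
  · rw [← Finset.coe_union, Set.ncard_coe_finset, Finset.card_union_of_disjoint, hS, hN]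
    rw [Finset.disjoint_left]
    intro a ha hb
    exact h.disj a hb ha
  · intro i
    fin_cases i
    · exact h.lineL (i := 0) (j := 1) (by decide)
    · exact h.lineL (i := 0) (j := 2) (by decide)
    · exact h.lineL (i := 0) (j := 3) (by decide)
  · intro i
    fin_cases i
    · exact h.lineL (i := 2) (j := 3) (by decide)
    · exact h.lineL (i := 3) (j := 1) (by decide)
    · exact h.lineL (i := 1) (j := 2) (by decide)
  · intro i
    fin_cases i
    · obtain ⟨m, hm, hm2⟩ := h.lineM (j := 2) (k := 0) (m := 3) (by decide) (by decide) (by decide)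
      refine ⟨m, hm, ?_⟩
      rw [hm2, h.symm 2 0 (by decide)]
      rfl
    · obtain ⟨m, hm, hm2⟩ := h.lineM (j := 3) (k := 0) (m := 1) (by decide) (by decide) (by decide)
      refine ⟨m, hm, ?_⟩
      rw [hm2, h.symm 3 0 (by decide)]
      rfl
    · obtain ⟨m, hm, hm2⟩ := h.lineM (j := 1) (k := 0) (m := 2) (by decide) (by decide) (by decide)
      refine ⟨m, hm, ?_⟩
      rw [hm2, h.symm 1 0 (by decide)]
      rfl
  · obtain ⟨m, hm, hm2⟩ := h.lineM (j := 2) (k := 3) (m := 1) (by decide) (by decide) (by decide)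
    refine ⟨m, hm, ?_⟩
    rw [hm2, h.symm 2 1 (by decide)]
    rfl

lemma hat_smul_inj {c c' : K} {P Q : K × K} (hc : c ≠ 0) (h : c • hat P = c' • hat Q) : P = Q := by
  have h0 := congrFun h 0
  have h1 := congrFun h 1
  have h2 := congrFun h 2
  simp only [Pi.smul_apply, smul_eq_mul, hat_zero, hat_one, hat_two, mul_one] at h0 h1 h2
  rw [← h2] at h0 h1
  ext
  · exact mul_left_cancel₀ hc h0
  · exact mul_left_cancel₀ hc h1

/-- the Desargues configuration from the core statement -/
lemma isDesargues_of_core [Fintype K] [DecidableEq K] (hq : Fintype.card K = 5)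
    (hS : S.card = Fintype.card K + 1)
    (hN : N.card + 1 = Fintype.card K) (hNS : ∀ n ∈ N, n ∉ S) {l : K × K → K}
    (hl : ∀ n ∈ N, l n ≠ 0)
    (hconf : Conf (S.image hat) (N.image (fun n => l n • hat n)))
    (h0 : ∑ n ∈ N.image (fun n => l n • hat n), n = 0)
    (hcore : ∀ n1 ∈ N.image (fun n => l n • hat n), ∀ n2 ∈ N.image (fun n => l n • hat n),
      ∀ m1 ∈ N.image (fun n => l n • hat n), ∀ m2 ∈ N.image (fun n => l n • hat n),
      n1 ≠ n2 → m1 ≠ m2 → ∀ t : K, n1 - n2 = t • (m1 - m2) →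
      (n1 = m1 ∧ n2 = m2) ∨ (n1 = m2 ∧ n2 = m1)) :
    IsDesargues ((S : Set (K × K)) ∪ N) := by
  classical
  have hS6 : S.card = 6 := by omega
  have hN4 : N.card = 4 := by omega
  set e : Fin 4 ≃ N := (N.equivFinOfCardEq hN4).symm with he
  set p : Fin 4 → K × K := fun i => (e i : K × K) with hp
  set v : Fin 4 → Fin 3 → K := fun i => l (p i) • hat (p i) with hv
  have hpN : ∀ i, p i ∈ N := fun i => (e i).2
  have hpinj : Function.Injective p := by
    intro i j hij
    exact e.injective (Subtype.ext hij)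
  have hvN : ∀ i, v i ∈ N.image (fun n => l n • hat n) := fun i =>
    Finset.mem_image_of_mem (fun n => l n • hat n) (hpN i)
  have hvinj : Function.Injective v := by
    intro i j hij
    apply hpinj
    exact hat_smul_inj (hl _ (hpN i)) hij
  have hex : ∀ i j, ∃ s : K × K, i ≠ j → (s ∈ S ∧ ∃ t : K, t ≠ 0 ∧ v i - v j = t • hat s) := by
    intro i j
    by_cases hij : i = j
    · exact ⟨0, fun h => absurd hij h⟩
    · obtain ⟨s', hs', t, ht, hst⟩ := hconf.diff _ (hvN i) _ (hvN j) (fun h => hij (hvinj h))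
      obtain ⟨s, hs, rfl⟩ := Finset.mem_image.1 hs'
      exact ⟨s, fun _ => ⟨hs, t, ht, hst⟩⟩
  choose σ hσ using hex
  have hdist : ∀ i j k m, i ≠ j → k ≠ m → σ i j = σ k m → (i = k ∧ j = m) ∨ (i = m ∧ j = k) := by
    intro i j k m hij hkm h
    obtain ⟨_, t, ht, h1⟩ := hσ i j hij
    obtain ⟨_, t', ht', h2⟩ := hσ k m hkm
    have h3 : v i - v j = (t / t') • (v k - v m) := by
      rw [h1, h2, h, smul_smul, div_mul_cancel₀ _ ht']
    rcases hcore _ (hvN i) _ (hvN j) _ (hvN k) _ (hvN m) (fun h => hij (hvinj h))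
      (fun h => hkm (hvinj h)) _ h3 with ⟨h4, h5⟩ | ⟨h4, h5⟩
    · left; exact ⟨hvinj h4, hvinj h5⟩
    · right; exact ⟨hvinj h4, hvinj h5⟩
  have hsymm : ∀ i j, i ≠ j → σ i j = σ j i := by
    intro i j hij
    obtain ⟨_, t, ht, h1⟩ := hσ i j hij
    obtain ⟨_, t', ht', h2⟩ := hσ j i (Ne.symm hij)
    apply hat_smul_inj ht (c' := -t')
    rw [← h1, neg_smul, ← h2]
    abel
  have hSσ : ∀ s ∈ S, ∃ i j, i ≠ j ∧ s = σ i j := by
    set P : Finset (Fin 4 × Fin 4) := Finset.univ.filter (fun x => x.1 < x.2) with hP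
    have hPc : P.card = 6 := by rw [hP]; decide
    have himg : P.image (fun x => σ x.1 x.2) = S := by
      apply Finset.eq_of_subset_of_card_le
      · intro s hs
        obtain ⟨x, hx, rfl⟩ := Finset.mem_image.1 hs
        rw [hP, Finset.mem_filter] at hx
        exact (hσ x.1 x.2 (ne_of_lt hx.2)).1
      · rw [Finset.card_image_of_injOn, hPc, hS6]
        rintro ⟨a, b⟩ hx ⟨c, d⟩ hy hxy
        rw [hP, Finset.coe_filter] at hx hy
        have hx' : a < b := hx.2
        have hy' : c < d := hy.2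
        rcases hdist a b c d (ne_of_lt hx') (ne_of_lt hy') hxy with ⟨h1, h2⟩ | ⟨h1, h2⟩
        · rw [h1, h2]
        · exfalso
          subst h1 h2
          exact absurd hx' (not_lt.2 hy'.le)
    intro s hs
    rw [← himg] at hs
    obtain ⟨x, hx, rfl⟩ := Finset.mem_image.1 hs
    rw [hP, Finset.mem_filter] at hx
    exact ⟨x.1, x.2, ne_of_lt hx.2, rfl⟩
  have hdata : Data S N p v σ := by
    refine ⟨?_, hpN, ?_, hNS, ?_, fun i j hij => (hσ i j hij).1, hSσ, hsymm, hdist,
      fun i j hij => (hσ i j hij).2, hpinj, ?_, ?_⟩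
    · have := FiniteField.cast_card_eq_zero K
      rw [hq] at this
      exact_mod_cast this
    · intro n hn
      exact ⟨e.symm ⟨n, hn⟩, by simp [hp]⟩
    · intro i
      exact ⟨l (p i), hl _ (hpN i), rfl⟩
    · rw [Finset.sum_image] at h0
      · have h1 : ∑ x ∈ N, l x • hat x = ∑ i, v i := by
          rw [← Finset.sum_coe_sort N]
          exact (Equiv.sum_comp e (fun x : N => l (x : K × K) • hat (x : K × K))).symm
        rw [h1, Fin.sum_univ_four] at h0
        exact h0
      · intro x hx y hy hxy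
        exact hat_smul_inj (hl x (by simpa using hx)) hxy
    · intro i w hw hi s hs s' hs' h1 h2
      have h3 : ∑ a, w a * v i a = 0 := by
        have : ∑ a, w a * v i a = l (p i) * val w (p i) := by
          rw [hv, val_eq, Finset.mul_sum]
          refine Finset.sum_congr rfl fun a _ => ?_
          simp only [Pi.smul_apply, smul_eq_mul]; ring
        rw [this, hi, mul_zero]
      have h4 := hconf.nuc _ (hvN i) w hw h3
      apply hat_injective
      refine h4.unique ⟨Finset.mem_image_of_mem _ hs, ?_⟩ ⟨Finset.mem_image_of_mem _ hs', ?_⟩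
      · rw [← val_eq]; exact h1
      · rw [← val_eq]; exact h2
  exact hdata.isDesargues hS6 hN4

end Pool.Agent.helper43.Nuclei
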