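import Mathlib
import Pool.Agent.helper43.Nuclei.TypeTwoB

set_option autoImplicit false

open Pool.Agent.Nuclei

namespace Pool.Agent.helper43.Nuclei

/-- the classification, given the algebraic core -/
theorem main_of_core {F : Type*} [Field F] [Fintype F]
    (core : ∀ S N : Finset (Fin 3 → F), Conf S N → ∑ n ∈ N, n = 0 →
      Fintype.card F = 5 ∧ ∀ n1 ∈ N, ∀ n2 ∈ N, ∀ m1 ∈ N, ∀ m2 ∈ N, n1 ≠ n2 → m1 ≠ m2 →
        ∀ t : F, n1 - n2 = t • (m1 - m2) → (n1 = m1 ∧ n2 = m2) ∨ (n1 = m2 ∧ n2 = m1))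
    (S : Set (F × F)) (hS : S.ncard = Nat.card F + 1)
    (hN : {P | IsNucleus S P}.ncard = Nat.card F - 1) : TypeI S ∨ TypeII S := by
  classical
  rw [Nat.card_eq_fintype_card] at hS hN
  have hq1 : 1 < Fintype.card F := Fintype.one_lt_card
  set T : Finset (F × F) := S.toFinset with hT
  set N : Finset (F × F) := {P | IsNucleus S P}.toFinset with hNdef
  have hTS : (T : Set (F × F)) = S := by rw [hT, Set.coe_toFinset]
  have hNS' : (N : Set (F × F)) = {P | IsNucleus S P} := by rw [hNdef, Set.coe_toFinset]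
  have hTc : T.card = Fintype.card F + 1 := by
    rw [← hS, ← hTS, Set.ncard_coe_finset]
  have hNc : N.card + 1 = Fintype.card F := by
    have : N.card = Fintype.card F - 1 := by
      rw [← hN, ← hNS', Set.ncard_coe_finset]
    omega
  have hmem : ∀ n ∈ N, IsNucleus S n := by
    intro n hn
    have : n ∈ (N : Set (F × F)) := Finset.mem_coe.2 hn
    rw [hNS'] at this
    exact this
  have hNT : ∀ n ∈ N, n ∉ T := by
    intro n hn hnT
    apply (hmem n hn).1
    rw [← hTS]
    exact Finset.mem_coe.2 hnT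
  have hnuc : ∀ n ∈ N, Nuc T n := by
    intro n hn
    apply nuc_of (hNT n hn) hTc
    intro a b hab
    obtain ⟨s, hs, h1⟩ := exists_of_isNucleus (hmem n hn) a b hab
    rw [← hTS] at hs
    exact ⟨s, Finset.mem_coe.1 hs, h1⟩
  obtain ⟨l, hl, hconf⟩ := lift hTc hNc hNT hnuc
  rw [← hTS]
  rcases Nat.lt_or_ge 2 (Fintype.card F) with hq | hq
  · by_cases h0 : ∑ n ∈ N.image (fun n => l n • hat n), n = 0
    · right
      obtain ⟨h5, hcore⟩ := core _ _ hconf h0
      have hD := isDesargues_of_core h5 hTc hNc hNT hl hconf h0 hcore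
      rw [hNS'] at hD
      have e1 : {P | IsNucleus (T : Set (F × F)) P} = {P | IsNucleus S P} := by rw [hTS]
      refine ⟨?_, ?_, ?_, ?_⟩
      · rw [Nat.card_eq_fintype_card]; exact h5
      · rw [Set.ncard_coe_finset]; omega
      · rw [e1, hN]; omega
      · rw [e1]; exact hD
    · left
      exact typeI_of_sum_ne_zero hTc hq hconf h0
  · left
    have hNne : N.Nonempty := by
      rw [← Finset.card_pos]; omega
    obtain ⟨n, hn⟩ := hNne
    exact typeI_of_card_two hTc (by omega) (hNT n hn)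

end Pool.Agent.helper43.Nuclei
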